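import Pool.Agent.MP_f6b137_pr.H74.Base

/-! A peaking polynomial for each cell: a power of a shifted Fejer kernel. -/

namespace Pool.Agent.MP_f6b137_pr.H45

open Pool.Agent.MP_f6b137_pr.H74
open MeasureTheory Polynomial Filter
open scoped Real

noncomputable section

/-- the unnormalised Fejer kernel -/
def fej (m : ℕ) (t : ℝ) : ℝ :=
  ∑ a ∈ Finset.range m, ∑ b ∈ Finset.range m, Real.cos (((a : ℝ) - b) * t)

lemma fej_eq (m : ℕ) (t : ℝ) : fej m t =
    (∑ a ∈ Finset.range m, Real.cos (a * t)) ^ 2 + (∑ a ∈ Finset.range m, Real.sin (a * t)) ^ 2 := by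
  unfold fej
  rw [sq, sq, Finset.sum_mul_sum, Finset.sum_mul_sum, ← Finset.sum_add_distrib]
  refine Finset.sum_congr rfl fun a _ => ?_
  rw [← Finset.sum_add_distrib]
  refine Finset.sum_congr rfl fun b _ => ?_
  rw [sub_mul, Real.cos_sub]

lemma fej_nonneg (m : ℕ) (t : ℝ) : 0 ≤ fej m t := by
  rw [fej_eq]; positivity

lemma fej_le (m : ℕ) (t : ℝ) : fej m t ≤ (m : ℝ) ^ 2 := by
  unfold fej
  refine (Finset.sum_le_sum fun a _ => Finset.sum_le_sum fun b _ => Real.cos_le_one _).trans ?_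
  simp [sq]

lemma geo (m : ℕ) (t : ℝ) :
    (Real.cos t - 1) * (∑ a ∈ Finset.range m, Real.cos (a * t)) -
        Real.sin t * (∑ a ∈ Finset.range m, Real.sin (a * t)) = Real.cos (m * t) - 1 ∧
      Real.sin t * (∑ a ∈ Finset.range m, Real.cos (a * t)) +
        (Real.cos t - 1) * (∑ a ∈ Finset.range m, Real.sin (a * t)) = Real.sin (m * t) := by
  induction m with
  | zero => simp
  | succ m ih =>
    rw [Finset.sum_range_succ, Finset.sum_range_succ]
    push_cast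
    rw [add_mul, one_mul, Real.cos_add, Real.sin_add]
    constructor
    · linear_combination ih.1
    · linear_combination ih.2

lemma fej_mul (m : ℕ) (t : ℝ) : fej m t * (1 - Real.cos t) = 1 - Real.cos (m * t) := by
  obtain ⟨h1, h2⟩ := geo m t
  rw [fej_eq]
  have h3 := Real.sin_sq_add_cos_sq t
  have h4 := Real.sin_sq_add_cos_sq (m * t)
  set A := ∑ a ∈ Finset.range m, Real.cos (a * t)
  set B := ∑ a ∈ Finset.range m, Real.sin (a * t)
  have h5 : ((Real.cos t - 1) * A - Real.sin t * B) ^ 2 +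
      (Real.sin t * A + (Real.cos t - 1) * B) ^ 2 =
      (Real.cos (m * t) - 1) ^ 2 + Real.sin (m * t) ^ 2 := by rw [h1, h2]
  linear_combination (1 / 2) * h5 - (1 / 2) * (A ^ 2 + B ^ 2) * h3 + (1 / 2) * h4

lemma fej_decay (m : ℕ) {t x : ℝ} (hx : |x| ≤ π) (ht : Real.cos t ≤ Real.cos x) :
    fej m t * x ^ 2 ≤ 16 := by
  have h1 := Real.cos_le_one_sub_mul_cos_sq hx
  have h2 := fej_mul m t
  have h3 := Real.neg_one_le_cos (m * t)
  have h0 := fej_nonneg m t
  have hp := Real.pi_pos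
  have hp4 := Real.pi_le_four
  have h4 : x ^ 2 / 8 ≤ 2 / π ^ 2 * x ^ 2 := by
    have : (1 : ℝ) / 8 ≤ 2 / π ^ 2 := by
      rw [div_le_div_iff₀ (by norm_num) (by positivity)]
      nlinarith
    nlinarith [sq_nonneg x]
  have h5 : x ^ 2 / 8 ≤ 1 - Real.cos t := by linarith
  nlinarith [mul_le_mul_of_nonneg_left h5 h0]

lemma fej_low (m : ℕ) {t : ℝ} (ht : m * |t| ≤ 1) : (m : ℝ) ^ 2 / 2 ≤ fej m t := by
  unfold fej
  have : ∀ a ∈ Finset.range m, ∀ b ∈ Finset.range m,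
      (1 : ℝ) / 2 ≤ Real.cos (((a : ℝ) - b) * t) := by
    intro a ha b hb
    have ha' : (a : ℝ) ≤ m := by exact_mod_cast (Finset.mem_range.1 ha).le
    have hb' : (b : ℝ) ≤ m := by exact_mod_cast (Finset.mem_range.1 hb).le
    have h1 : |(a : ℝ) - b| ≤ m := by
      rw [abs_le]
      constructor <;> linarith [Nat.cast_nonneg (α := ℝ) a, Nat.cast_nonneg (α := ℝ) b]
    have h2 : |((a : ℝ) - b) * t| ≤ 1 := by
      rw [abs_mul]
      exact (mul_le_mul_of_nonneg_right h1 (abs_nonneg t)).trans ht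
    have h3 := (sq_le_one_iff_abs_le_one _).2 h2
    linarith [Real.one_sub_sq_div_two_le_cos (x := ((a : ℝ) - b) * t)]
  refine le_trans (le_of_eq ?_) (Finset.sum_le_sum fun a ha => Finset.sum_le_sum (this a ha))
  simp only [Finset.sum_const, Finset.card_range, nsmul_eq_mul]
  ring

/-- the shifted kernel as a polynomial in the cosine -/
def pk (m : ℕ) (c : ℝ) : ℝ[X] :=
  ∑ a ∈ Finset.range m, ∑ b ∈ Finset.range m,
    C (4 / (m : ℝ) ^ 2 * Real.cos (((a : ℝ) - b) * c)) * Chebyshev.T ℝ ((a : ℤ) - b)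

lemma natDegree_pk (m : ℕ) (c : ℝ) : (pk m c).natDegree ≤ m := by
  refine natDegree_sum_le_of_forall_le _ _ fun a ha => natDegree_sum_le_of_forall_le _ _
    fun b hb => (natDegree_C_mul_le _ _).trans ?_
  rw [Chebyshev.natDegree_T]
  have := Finset.mem_range.1 ha
  have := Finset.mem_range.1 hb
  omega

lemma eval_pk (m : ℕ) (c θ : ℝ) :
    (pk m c).eval (Real.cos θ) = 2 / (m : ℝ) ^ 2 * (fej m (θ - c) + fej m (θ + c)) := by
  unfold pk fej
  rw [eval_finsetSum, ← Finset.sum_add_distrib, Finset.mul_sum]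
  refine Finset.sum_congr rfl fun a _ => ?_
  rw [eval_finsetSum, ← Finset.sum_add_distrib, Finset.mul_sum]
  refine Finset.sum_congr rfl fun b _ => ?_
  rw [eval_mul, eval_C, Chebyshev.T_real_cos]
  push_cast
  rw [mul_sub ((a : ℝ) - b), mul_add ((a : ℝ) - b), Real.cos_sub, Real.cos_add]
  ring

lemma pk_nonneg (m : ℕ) (c θ : ℝ) : 0 ≤ (pk m c).eval (Real.cos θ) := by
  rw [eval_pk]
  have := fej_nonneg m (θ - c)
  have := fej_nonneg m (θ + c)
  positivity

lemma pk_low {m : ℕ} (hm : 0 < m) {c θ : ℝ} (h : m * |θ - c| ≤ 1) :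
    1 ≤ (pk m c).eval (Real.cos θ) := by
  rw [eval_pk]
  have h1 := fej_low m h
  have h2 := fej_nonneg m (θ + c)
  have hm' : (0 : ℝ) < (m : ℝ) ^ 2 := by positivity
  rw [div_mul_eq_mul_div, le_div_iff₀ hm']
  linarith

lemma pk_up {m : ℕ} (hm : 0 < m) {c θ N R : ℝ} (hc : c ∈ Set.Icc 0 π) (hθ : θ ∈ Set.Icc 0 π)
    (hN0 : 0 ≤ N) (hN : N ≤ R * m) :
    (pk m c).eval (Real.cos θ) * (1 + N * |θ - c|) ^ 2 ≤ 8 + 128 * R ^ 2 := by
  rw [eval_pk]
  have hx : |θ - c| ≤ π := by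
    rw [abs_le]; constructor <;> linarith [hc.1, hc.2, hθ.1, hθ.2]
  have h1 := fej_decay m (t := θ - c) hx le_rfl
  have h2 := fej_decay m (t := θ + c) hx (by
    rw [Real.cos_add, Real.cos_sub]
    have := mul_nonneg (Real.sin_nonneg_of_mem_Icc hθ) (Real.sin_nonneg_of_mem_Icc hc)
    linarith)
  have h3 := fej_le m (θ - c)
  have h4 := fej_le m (θ + c)
  have h5 := fej_nonneg m (θ - c)
  have h6 := fej_nonneg m (θ + c)
  have hm' : (0 : ℝ) < (m : ℝ) ^ 2 := by positivity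
  have h7 : (1 + N * |θ - c|) ^ 2 ≤ 2 + 2 * N ^ 2 * (θ - c) ^ 2 := by
    rw [← sq_abs (θ - c)]
    nlinarith [sq_nonneg (1 - N * |θ - c|)]
  have h8 : N ^ 2 ≤ R ^ 2 * (m : ℝ) ^ 2 := by
    rw [← mul_pow]; exact pow_le_pow_left₀ hN0 hN 2
  set F := fej m (θ - c) + fej m (θ + c) with hF
  have h9 : F * (θ - c) ^ 2 ≤ 32 := by rw [hF]; linarith
  have h10 : F ≤ 2 * (m : ℝ) ^ 2 := by rw [hF]; linarith
  have h11 : 0 ≤ F := by rw [hF]; linarith
  have h12 : F * (1 + N * |θ - c|) ^ 2 ≤ 4 * (m : ℝ) ^ 2 + 64 * (R ^ 2 * (m : ℝ) ^ 2) := by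
    have := mul_le_mul_of_nonneg_left h7 h11
    have := mul_le_mul_of_nonneg_left h9 (sq_nonneg N)
    nlinarith
  rw [mul_assoc, div_mul_eq_mul_div, div_le_iff₀ hm']
  linarith

lemma sum_inv_sq (n : ℕ) : ∑ k ∈ Finset.range n, 1 / ((k : ℝ) + 1) ^ 2 ≤ 2 - 1 / ((n : ℝ) + 1) := by
  have key : ∀ n : ℕ, ∑ k ∈ Finset.range (n + 1), 1 / ((k : ℝ) + 1) ^ 2 ≤ 2 - 1 / ((n : ℝ) + 1) := by
    intro n
    induction n with
    | zero => norm_num
    | succ n ih =>
      rw [Finset.sum_range_succ]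
      push_cast
      have h0 : (0 : ℝ) ≤ n := Nat.cast_nonneg n
      have : 1 / ((n : ℝ) + 1 + 1) ^ 2 ≤ 1 / ((n : ℝ) + 1) - 1 / ((n : ℝ) + 1 + 1) := by
        rw [div_sub_div _ _ (by positivity) (by positivity), div_le_div_iff₀ (by positivity)
          (by positivity)]
        nlinarith
      linarith
  refine le_trans ?_ (key n)
  rw [Finset.sum_range_succ]
  have : 0 ≤ 1 / ((n : ℝ) + 1) ^ 2 := by positivity
  linarith

/-- a function with polynomial decay away from the centre has integral comparable to the mass -/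
lemma int_decay {μ : Measure ℝ} {C₀ : ℝ} {s : ℕ} (h : Dbl μ C₀ s) {N j : ℕ} (hj : j < N)
    {f : ℝ → ℝ} {M : ℝ} (hM : 0 ≤ M) (hf0 : ∀ θ, 0 ≤ f θ)
    (hf : ∀ θ ∈ Set.Icc 0 π, f θ * (1 + N * |θ - ctr N j|) ^ (s + 2) ≤ M) :
    ∫ θ, f θ ∂μ ≤ 2 * M * C₀ * mass μ N j := by
  have := h.fin
  have hc := ctr_mem hj
  have hN : (0 : ℝ) < N := by exact_mod_cast (by omega : 0 < N)
  have hp := Real.pi_pos
  have hint : ∀ k ∈ Finset.range (N + 1), Integrable (fun θ =>
      (Metric.closedBall (ctr N j) (((k : ℝ) + 1) * (π / N))).indicator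
        (fun _ => M / ((k : ℝ) + 1) ^ (s + 2)) θ) μ := fun k _ =>
    (integrable_const _).indicator Metric.isClosed_closedBall.measurableSet
  have h1 : ∫ θ, f θ ∂μ ≤ ∫ θ, ∑ k ∈ Finset.range (N + 1),
      (Metric.closedBall (ctr N j) (((k : ℝ) + 1) * (π / N))).indicator
        (fun _ => M / ((k : ℝ) + 1) ^ (s + 2)) θ ∂μ := by
    refine integral_mono_of_nonneg (Eventually.of_forall hf0) (integrable_finsetSum _ hint) ?_
    filter_upwards [h.supp] with θ hθ
    have hθ : θ ∈ Set.Icc 0 π := hθ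
    have hx : |θ - ctr N j| ≤ π := by
      rw [abs_le]; constructor <;> linarith [hc.1, hc.2, hθ.1, hθ.2]
    have hx0 := abs_nonneg (θ - ctr N j)
    set x := |θ - ctr N j| with hxd
    have hy0 : 0 ≤ N * x / π := by positivity
    have hk1 : (⌊N * x / π⌋₊ : ℝ) ≤ N * x / π := Nat.floor_le hy0
    have hk2 : N * x / π < (⌊N * x / π⌋₊ : ℝ) + 1 := Nat.lt_floor_add_one _
    set k := ⌊N * x / π⌋₊
    have hk0 : (0 : ℝ) ≤ k := Nat.cast_nonneg k
    have hkN : k ∈ Finset.range (N + 1) := by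
      rw [Finset.mem_range, Nat.lt_succ_iff]
      have : N * x / π ≤ N := by
        rw [div_le_iff₀ hp]; exact mul_le_mul_of_nonneg_left hx hN.le
      exact_mod_cast hk1.trans this
    refine le_trans ?_ (Finset.single_le_sum (f := fun k : ℕ =>
      (Metric.closedBall (ctr N j) (((k : ℝ) + 1) * (π / N))).indicator
        (fun _ => M / ((k : ℝ) + 1) ^ (s + 2)) θ)
      (fun i _ => Set.indicator_nonneg (fun _ _ => by positivity) θ) hkN)
    have hmem : θ ∈ Metric.closedBall (ctr N j) (((k : ℝ) + 1) * (π / N)) := by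
      rw [Metric.mem_closedBall, Real.dist_eq, ← hxd, ← mul_div_assoc, le_div_iff₀ hN]
      rw [div_lt_iff₀ hp] at hk2
      linarith
    rw [Set.indicator_of_mem hmem, le_div_iff₀ (by positivity)]
    refine le_trans (mul_le_mul_of_nonneg_left (pow_le_pow_left₀ (by positivity) ?_ _) (hf0 θ))
      (hf θ hθ)
    rw [le_div_iff₀ hp] at hk1
    nlinarith [Real.two_le_pi]
  refine h1.trans ?_
  rw [integral_finsetSum _ hint]
  have h2 : ∀ k ∈ Finset.range (N + 1), ∫ θ,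
      (Metric.closedBall (ctr N j) (((k : ℝ) + 1) * (π / N))).indicator
        (fun _ => M / ((k : ℝ) + 1) ^ (s + 2)) θ ∂μ ≤
        M * C₀ * mass μ N j * (1 / ((k : ℝ) + 1) ^ 2) := by
    intro k _
    have hk0 : (0 : ℝ) ≤ k := Nat.cast_nonneg k
    rw [integral_indicator_const _ Metric.isClosed_closedBall.measurableSet, smul_eq_mul]
    have := h.dbl _ hc (π / N) ((k : ℝ) + 1) (by positivity) (by linarith)
    refine (mul_le_mul_of_nonneg_right this (by positivity)).trans (le_of_eq ?_)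
    unfold mass
    field_simp
    ring
  refine (Finset.sum_le_sum h2).trans ?_
  rw [← Finset.mul_sum]
  have h3 := sum_inv_sq (N + 1)
  have h4 : 0 ≤ 1 / (((N + 1 : ℕ) : ℝ) + 1) := by positivity
  have h5 : 0 ≤ M * C₀ * mass μ N j :=
    mul_nonneg (mul_nonneg hM h.C_pos.le) (mass_nonneg μ N j)
  nlinarith

theorem rowPEAK : RowPEAK := by
  intro μ C₀ s h
  obtain ⟨r, hr⟩ : ∃ r : ℕ, r = s + 3 := ⟨_, rfl⟩
  have hr0 : 0 < r := by omega
  refine ⟨2 * (8 + 128 * (4 * (r : ℝ)) ^ 2) ^ (2 * r) * C₀, 2 * r + 6,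
    by have := h.C_pos; positivity, fun N j hN hj => ?_⟩
  obtain ⟨m, hm⟩ : ∃ m : ℕ, m = N / (2 * r) := ⟨_, rfl⟩
  have hm1 : 2 * r * m ≤ N := by rw [hm]; exact Nat.mul_div_le N (2 * r)
  have hm2 : N < 2 * r * (m + 1) := by rw [hm]; exact Nat.lt_mul_div_succ N (by omega)
  have hm0 : 0 < m := by rw [hm]; exact Nat.div_pos (by omega) (by omega)
  have hN0 : (0 : ℝ) < N := by exact_mod_cast (by omega : 0 < N)
  have hm3 : (N : ℝ) ≤ 4 * (r : ℝ) * m := by
    have : N ≤ 4 * r * m := by nlinarith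
    exact_mod_cast this
  have hm4 : 2 * (m : ℝ) ≤ N := by
    have : 2 * m ≤ N := by nlinarith
    exact_mod_cast this
  refine ⟨pk m (ctr N j) ^ r, ?_, fun θ hθ => ?_, ?_⟩
  · have h1 : (pk m (ctr N j) ^ r).natDegree ≤ r * m :=
      natDegree_pow_le.trans (Nat.mul_le_mul_left r (natDegree_pk m _))
    nlinarith
  · rw [eval_pow]
    refine one_le_pow₀ (pk_low hm0 ?_)
    rw [le_div_iff₀ (by positivity)] at hθ
    have hx0 := abs_nonneg (θ - ctr N j)
    nlinarith [Real.pi_le_four, mul_le_mul_of_nonneg_right hm4 hx0]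
  · refine int_decay h hj (by positivity) (fun θ => by positivity) fun θ hθ => ?_
    have h1 := pk_up hm0 (ctr_mem hj) hθ hN0.le hm3
    have h2 := pk_nonneg m (ctr N j) θ
    have h3 : 1 ≤ 1 + N * |θ - ctr N j| := by
      have := abs_nonneg (θ - ctr N j)
      nlinarith
    rw [eval_pow]
    set d := (pk m (ctr N j)).eval (Real.cos θ)
    set w := 1 + N * |θ - ctr N j|
    refine le_trans ?_ (pow_le_pow_left₀ (by positivity) h1 (2 * r))
    rw [mul_pow, ← pow_mul, ← pow_mul, mul_assoc, ← pow_add, mul_comm r 2]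
    exact mul_le_mul_of_nonneg_left (pow_le_pow_right₀ h3 (by omega)) (by positivity)

end

end Pool.Agent.MP_f6b137_pr.H45
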